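import Pool.Agent.helper5.IH.Spec2
import Pool.Agent.helper54.IH.MRG

/-!
# MP_45d809_mp, row ih:MRV (from helper54/IH/MRG.lean)
-/

set_option autoImplicit false

namespace Pool.Agent.IH
open Finset CT SYM

theorem MRV (hLBF : SYM.LBF_stmt) : MRV_stmt := by
  classical
  intro V _ _ G τ d1 d2 h4 hts hd hcir
  have hfin : Finite G.Dart := inferInstance
  let _ : Fintype G.Dart := Fintype.ofFinite _
  have hLB : ∀ τ' : G.Dart → G.Dart, Nat.card {φ : G.Dart → Bool // MRG_Inv (fun d => d.symm) τ' φ} = 2 ^ nci τ' :=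
    fun τ' => hLBF G.Dart (fun d => d.symm) τ' (fun _ => False)
  obtain ⟨hττ, hfst, hne⟩ := hts
  have hsn : ∀ d : G.Dart, d.symm ≠ d := fun d h => by
    have := congrArg (fun d : G.Dart => d.fst) h
    exact d.adj.ne this.symm
  have cs : ∀ x : G.Dart, cir (fun d : G.Dart => d.symm) τ x.symm = cir (fun d : G.Dart => d.symm) τ x :=
    fun x => ((Quot.sound (Or.inl rfl) : cir (fun d : G.Dart => d.symm) τ x =
      cir (fun d : G.Dart => d.symm) τ x.symm)).symm
  have ct : ∀ x : G.Dart, cir (fun d : G.Dart => d.symm) τ (τ x) = cir (fun d : G.Dart => d.symm) τ x :=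
    fun x => ((Quot.sound (Or.inr rfl) : cir (fun d : G.Dart => d.symm) τ x =
      cir (fun d : G.Dart => d.symm) τ (τ x))).symm
  obtain ⟨ψ, hψs, hψτ, hv1, hv2⟩ : ∃ ψ : G.Dart → Bool, (∀ d : G.Dart, ψ d.symm = ψ d) ∧ (∀ d, ψ (τ d) = ψ d) ∧
      ψ d1 = true ∧ ψ d2 = false := by
    refine ⟨fun x => decide (cir (fun d : G.Dart => d.symm) τ x = cir (fun d : G.Dart => d.symm) τ d1),
      fun x => ?_, fun x => ?_, ?_, ?_⟩
    · simp only [cs x]
    · simp only [ct x]
    · exact decide_eq_true rfl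
    · exact decide_eq_false fun h => hcir h.symm
  have hvτ1 : ψ (τ d1) = true := by rw [hψτ, hv1]
  have hvτ2 : ψ (τ d2) = false := by rw [hψτ, hv2]
  have n12 : d1 ≠ d2 := fun h => by rw [h, hv2] at hv1; exact Bool.noConfusion hv1
  have n1t2 : d1 ≠ τ d2 := fun h => by rw [h, hvτ2] at hv1; exact Bool.noConfusion hv1
  have nt12 : τ d1 ≠ d2 := fun h => by rw [h, hv2] at hvτ1; exact Bool.noConfusion hvτ1
  have nt1t2 : τ d1 ≠ τ d2 := fun h => by rw [h, hvτ2] at hvτ1; exact Bool.noConfusion hvτ1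
  have n11 : τ d1 ≠ d1 := hne d1
  have n22 : τ d2 ≠ d2 := hne d2
  let τ₁ : G.Dart → G.Dart := fun d => if d = d1 then d2 else if d = d2 then d1 else
    if d = τ d1 then τ d2 else if d = τ d2 then τ d1 else τ d
  have t1 : τ₁ d1 = d2 := by simp [τ₁]
  have t2 : τ₁ d2 = d1 := by simp [τ₁, n12.symm]
  have t3 : τ₁ (τ d1) = τ d2 := by simp [τ₁, n11, nt12]
  have t4 : τ₁ (τ d2) = τ d1 := by simp [τ₁, n1t2.symm, n22, nt1t2.symm]
  have t5 : ∀ d, d ≠ d1 → d ≠ d2 → d ≠ τ d1 → d ≠ τ d2 → τ₁ d = τ d := by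
    intro d a1 a2 a3 a4
    simp [τ₁, a1, a2, a3, a4]
  have hinj : ∀ a b, τ a = b → a = τ b := fun a b h => by rw [← h, hττ]
  refine ⟨τ₁, ⟨?_, ?_, ?_⟩, ?_, ?_⟩
  · intro d
    by_cases a1 : d = d1
    · rw [a1, t1, t2]
    by_cases a2 : d = d2
    · rw [a2, t2, t1]
    by_cases a3 : d = τ d1
    · rw [a3, t3, t4]
    by_cases a4 : d = τ d2
    · rw [a4, t4, t3]
    rw [t5 d a1 a2 a3 a4, t5 (τ d) (fun h => a3 (hinj _ _ h)) (fun h => a4 (hinj _ _ h))
      (fun h => a1 (by rw [hinj _ _ h, hττ])) (fun h => a2 (by rw [hinj _ _ h, hττ])), hττ]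
  · intro d
    by_cases a1 : d = d1
    · rw [a1, t1, hd]
    by_cases a2 : d = d2
    · rw [a2, t2, hd]
    by_cases a3 : d = τ d1
    · rw [a3, t3, hfst, hfst, hd]
    by_cases a4 : d = τ d2
    · rw [a4, t4, hfst, hfst, hd]
    rw [t5 d a1 a2 a3 a4, hfst]
  · intro d
    by_cases a1 : d = d1
    · rw [a1, t1]
      exact n12.symm
    by_cases a2 : d = d2
    · rw [a2, t2]
      exact n12
    by_cases a3 : d = τ d1
    · rw [a3, t3]
      exact nt1t2.symm
    by_cases a4 : d = τ d2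
    · rw [a4, t4]
      exact nt1t2
    rw [t5 d a1 a2 a3 a4]
    exact hne d
  · intro d hdv
    apply t5
    · intro h
      exact hdv (by rw [h])
    · intro h
      exact hdv (by rw [h, hd])
    · intro h
      exact hdv (by rw [h, hfst])
    · intro h
      exact hdv (by rw [h, hfst, hd])
  · have hiff : ∀ φ : G.Dart → Bool, MRG_Inv (fun d => d.symm) τ₁ φ ↔
        (MRG_Inv (fun d => d.symm) τ φ ∧ φ d1 = φ d2) := by
      intro φ
      constructor
      · rintro ⟨hs, ht, _⟩
        have hkey : φ d1 = φ (τ d1) := by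
          apply MRG_sum (fun d : G.Dart => d.symm) τ ψ φ d1 d2 (fun d => d.symm_symm) hsn hττ hne hψs hψτ hv1 hv2 hs
          intro d a1 a3 a2 a4
          rw [← t5 d a1 a2 a3 a4]
          exact ht d
        have h12 : φ d1 = φ d2 := by
          have := ht d1
          rw [t1] at this
          exact this.symm
        have h34 : φ (τ d1) = φ (τ d2) := by
          have := ht (τ d1)
          rw [t3] at this
          exact this.symm
        refine ⟨⟨hs, fun d => ?_, fun _ h => h.elim⟩, h12⟩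
        by_cases a1 : d = d1
        · rw [a1, hkey]
        by_cases a2 : d = d2
        · rw [a2, ← h34, ← hkey, h12]
        by_cases a3 : d = τ d1
        · rw [a3, hττ, hkey]
        by_cases a4 : d = τ d2
        · rw [a4, hττ, ← h12, hkey, h34]
        rw [← t5 d a1 a2 a3 a4]
        exact ht d
      · rintro ⟨⟨hs, ht, _⟩, h12⟩
        refine ⟨hs, fun d => ?_, fun _ h => h.elim⟩
        by_cases a1 : d = d1
        · rw [a1, t1, h12]
        by_cases a2 : d = d2
        · rw [a2, t2, h12]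
        by_cases a3 : d = τ d1
        · rw [a3, t3, ht, ht, h12]
        by_cases a4 : d = τ d2
        · rw [a4, t4, ht, ht, h12]
        rw [t5 d a1 a2 a3 a4]
        exact ht d
    have hhalf := MRG_half (MRG_Inv (fun d : G.Dart => d.symm) τ) ψ d1 d2 (by
      rintro φ ⟨hs, ht, _⟩
      refine ⟨fun d => ?_, fun d => ?_, fun _ h => h.elim⟩
      · change xor (φ d.symm) (ψ d.symm) = xor (φ d) (ψ d)
        have e1 : φ d.symm = φ d := hs d
        have e2 : ψ d.symm = ψ d := hψs d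
        rw [e1, e2]
      · change xor (φ (τ d)) (ψ (τ d)) = xor (φ d) (ψ d)
        rw [ht, hψτ]) hv1 hv2
    rw [hLB] at hhalf
    have hc : Nat.card {φ : G.Dart → Bool // MRG_Inv (fun d => d.symm) τ φ ∧ φ d1 = φ d2} = 2 ^ nci τ₁ := by
      rw [← hLB τ₁]
      apply Nat.card_congr
      exact Equiv.subtypeEquivRight fun φ => (hiff φ).symm
    rw [hc, ← pow_succ'] at hhalf
    exact (Nat.pow_right_injective (le_refl 2) hhalf).symm

end Pool.Agent.IH
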