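import Pool.Agent.helper5.IH.Spec

/-!
# MP_45d809_mp, row ih:OD4
-/

set_option autoImplicit false

namespace Pool.Agent.IH
open Finset CT SYM

open Classical in
theorem OD4_card (α : Type) [Fintype α] (p : α → Prop) :
    (Nat.card {a // p a} : ℤ) = ∑ a, if p a then (1 : ℤ) else 0 := by
  rw [Nat.card_eq_fintype_card, Fintype.card_subtype, Finset.card_filter]
  push_cast
  rfl

open Classical in
/-- The congruence for one `t`. -/
theorem OD4_one (k : ℕ) :
    (4 : ℤ) ∣ (if Odd k then (1 : ℤ) else 0) - (k : ℤ) + ((k : ℤ) * k - k) := by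
  by_cases h : Odd k
  · obtain ⟨m, hm⟩ := h
    rw [if_pos ⟨m, hm⟩, hm]
    push_cast
    exact ⟨(m : ℤ) ^ 2, by ring⟩
  · rw [if_neg h]
    obtain ⟨m, hm⟩ := Nat.not_odd_iff_even.1 h
    rw [hm]
    push_cast
    exact ⟨(m : ℤ) ^ 2 - m, by ring⟩

theorem OD4 : OD4_stmt := by
  classical
  intro T X _ _ P R
  have hk : ∀ t, (Nat.card {x // R t x} : ℤ) = ∑ x, if R t x then (1 : ℤ) else 0 :=
    fun t => OD4_card X (R t)
  have e1 : (Nat.card {t // P t ∧ Odd (Nat.card {x // R t x})} : ℤ) =
      ∑ t, if P t then (if Odd (Nat.card {x // R t x}) then (1 : ℤ) else 0) else 0 := by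
    rw [OD4_card]
    refine Finset.sum_congr rfl fun t _ => ?_
    by_cases h1 : P t <;> by_cases h2 : Odd (Nat.card {x // R t x}) <;> simp [h1, h2]
  have e2 : ∑ x, (Nat.card {t // P t ∧ R t x} : ℤ) =
      ∑ t, if P t then (Nat.card {x // R t x} : ℤ) else 0 := by
    have h1 : ∀ x, (Nat.card {t // P t ∧ R t x} : ℤ) =
        ∑ t, if P t then (if R t x then (1 : ℤ) else 0) else 0 := by
      intro x
      rw [OD4_card]
      refine Finset.sum_congr rfl fun t _ => ?_
      by_cases h1 : P t <;> by_cases h2 : R t x <;> simp [h1, h2]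
    rw [Finset.sum_congr rfl fun x _ => h1 x, Finset.sum_comm]
    refine Finset.sum_congr rfl fun t _ => ?_
    by_cases h2 : P t
    · simp only [if_pos h2]
      exact (hk t).symm
    · simp [h2]
  have e3 : (∑ x, ∑ y, if x = y then (0 : ℤ) else (Nat.card {t // P t ∧ R t x ∧ R t y} : ℤ)) =
      ∑ t, if P t then ((Nat.card {x // R t x} : ℤ) * (Nat.card {x // R t x} : ℤ) -
        (Nat.card {x // R t x} : ℤ)) else 0 := by
    have h1 : ∀ x y, (if x = y then (0 : ℤ) else (Nat.card {t // P t ∧ R t x ∧ R t y} : ℤ)) =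
        ∑ t, if P t then ((if R t x then (1 : ℤ) else 0) * (if R t y then (1 : ℤ) else 0) -
          (if x = y then (if R t x then (1 : ℤ) else 0) else 0)) else 0 := by
      intro x y
      by_cases hxy : x = y
      · rw [if_pos hxy]
        symm
        refine Finset.sum_eq_zero fun t _ => ?_
        subst hxy
        by_cases h1 : P t <;> by_cases h2 : R t x <;> simp [h1, h2]
      · rw [if_neg hxy, OD4_card]
        refine Finset.sum_congr rfl fun t _ => ?_
        by_cases h1 : P t <;> by_cases h2 : R t x <;> by_cases h3 : R t y <;>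
          simp [h1, h2, h3, hxy]
    have h2 : (∑ x, ∑ y, if x = y then (0 : ℤ) else (Nat.card {t // P t ∧ R t x ∧ R t y} : ℤ)) =
        ∑ x, ∑ y, ∑ t, if P t then ((if R t x then (1 : ℤ) else 0) * (if R t y then (1 : ℤ) else 0) -
          (if x = y then (if R t x then (1 : ℤ) else 0) else 0)) else 0 :=
      Finset.sum_congr rfl fun x _ => Finset.sum_congr rfl fun y _ => h1 x y
    rw [h2]
    have h3 : (∑ x, ∑ y, ∑ t, if P t then ((if R t x then (1 : ℤ) else 0) *
          (if R t y then (1 : ℤ) else 0) -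
          (if x = y then (if R t x then (1 : ℤ) else 0) else 0)) else 0) =
        ∑ t, ∑ x, ∑ y, if P t then ((if R t x then (1 : ℤ) else 0) *
          (if R t y then (1 : ℤ) else 0) -
          (if x = y then (if R t x then (1 : ℤ) else 0) else 0)) else 0 := by
      rw [Finset.sum_congr rfl fun x _ => Finset.sum_comm, Finset.sum_comm]
    rw [h3]
    refine Finset.sum_congr rfl fun t _ => ?_
    by_cases h4 : P t
    · simp only [if_pos h4, Finset.sum_sub_distrib]
      rw [hk t, Finset.sum_mul_sum]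
      refine congrArg₂ (· - ·) rfl ?_
      refine Finset.sum_congr rfl fun x _ => ?_
      simp
    · simp [h4]
  have key : (Nat.card {t // P t ∧ Odd (Nat.card {x // R t x})} : ℤ) -
      ∑ x, (Nat.card {t // P t ∧ R t x} : ℤ) +
      (∑ x, ∑ y, if x = y then (0 : ℤ) else (Nat.card {t // P t ∧ R t x ∧ R t y} : ℤ)) =
      ∑ t, if P t then ((if Odd (Nat.card {x // R t x}) then (1 : ℤ) else 0) -
        (Nat.card {x // R t x} : ℤ) + ((Nat.card {x // R t x} : ℤ) * (Nat.card {x // R t x} : ℤ) -
        (Nat.card {x // R t x} : ℤ))) else 0 := by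
    rw [e1, e2, e3, ← Finset.sum_sub_distrib, ← Finset.sum_add_distrib]
    refine Finset.sum_congr rfl fun t _ => ?_
    by_cases h : P t
    · simp only [if_pos h]
    · simp only [if_neg h]
      ring
  have goal : (4 : ℤ) ∣ (Nat.card {t // P t ∧ Odd (Nat.card {x // R t x})} : ℤ) -
      ∑ x, (Nat.card {t // P t ∧ R t x} : ℤ) +
      (∑ x, ∑ y, if x = y then (0 : ℤ) else (Nat.card {t // P t ∧ R t x ∧ R t y} : ℤ)) := by
    rw [key]
    refine Finset.dvd_sum fun t _ => ?_
    by_cases h : P t
    · rw [if_pos h]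
      have := OD4_one (Nat.card {x // R t x})
      simpa using this
    · rw [if_neg h]
      exact dvd_zero _
  have e5 : (∑ x, ∑ y, if x = y then (0 : ℤ) else (Nat.card {t // P t ∧ R t x ∧ R t y} : ℤ)) =
      ∑ x, ∑ y, @ite ℤ (x = y) (Classical.propDecidable _) 0
        (Nat.card {t // P t ∧ R t x ∧ R t y} : ℤ) := by
    refine Finset.sum_congr rfl fun x _ => Finset.sum_congr rfl fun y _ => ?_
    split_ifs <;> rfl
  rw [e5] at goal
  exact goal

end Pool.Agent.IH
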